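import Pool.Agent.Helper35.SHR.Sheet

/-!
# SHR: arithmetic with rounding, letters up to a bijection
-/

set_option autoImplicit false

namespace SHR
open SHQ
open scoped ENNReal

theorem suma_DD0 : (DD : ℝ≥0∞) ≠ 0 := by
  have : DD ≠ 0 := by decide
  exact_mod_cast this

theorem suma_DDt : (DD : ℝ≥0∞) ≠ ⊤ := ENNReal.natCast_ne_top _

theorem suma_mono {a b : ℕ} (h : a ≤ b) : toE a ≤ toE b := by
  unfold toE
  gcongr

theorem suma_add (a b : ℕ) : toE (a + b) = toE a + toE b := by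
  unfold toE
  push_cast
  rw [ENNReal.add_div]

theorem suma_one : toE DD = 1 := ENNReal.div_self suma_DD0 suma_DDt

theorem suma_zero : toE 0 = 0 := by
  unfold toE
  simp

theorem suma_top (a : ℕ) : toE a ≠ ⊤ :=
  (ENNReal.div_lt_top (ENNReal.natCast_ne_top _) suma_DD0).ne

theorem suma_mulE (a b : ℕ) :
    toE a * toE b = ((a * b : ℕ) : ℝ≥0∞) / (DD : ℝ≥0∞) / (DD : ℝ≥0∞) := by
  unfold toE
  push_cast
  rw [div_eq_mul_inv, div_eq_mul_inv, div_eq_mul_inv, div_eq_mul_inv]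
  ring

theorem suma_mul (a b : ℕ) : toE (mulN a b) ≤ toE a * toE b := by
  rw [suma_mulE]
  unfold toE mulN
  refine ENNReal.div_le_div_right ?_ _
  rw [ENNReal.le_div_iff_mul_le (Or.inl suma_DD0) (Or.inl suma_DDt)]
  exact_mod_cast Nat.div_mul_le_self (a * b) DD

theorem suma_mul1 (a b : ℕ) : toE a * toE b ≤ toE (mulN a b + 1) := by
  rw [suma_mulE]
  unfold toE mulN
  refine ENNReal.div_le_div_right ?_ _
  rw [ENNReal.div_le_iff_le_mul (Or.inl suma_DD0) (Or.inl suma_DDt)]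
  have h : a * b ≤ (a * b / DD + 1) * DD := by
    have h1 := Nat.div_add_mod (a * b) DD
    have h2 := Nat.mod_lt (a * b) (show 0 < DD by decide)
    nlinarith
  exact_mod_cast h

theorem suma_chk {r x z u : ℕ} (h : x = 0 ∨ mulN r x + 1 ≤ mulN z u) :
    toE r * toE x ≤ toE z * toE u := by
  rcases h with h | h
  · rw [h, suma_zero, mul_zero]
    exact bot_le
  · exact (suma_mul1 r x).trans ((suma_mono h).trans (suma_mul z u))

theorem suma_pow (a k : ℕ) : toE (powN a k) ≤ toE a ^ k := by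
  induction k with
  | zero => rw [powN, suma_one, pow_zero]
  | succ k ih =>
    rw [powN, pow_succ]
    exact (suma_mul _ _).trans (mul_le_mul' ih le_rfl)

theorem suma_wt {n : ℕ} (o : NOm) (s : St n) (a : Fin 3) : toE (wtN o s a) ≤ wt o.om s a := by
  unfold wtN wt
  split_ifs
  · rw [suma_one]
  · exact le_rfl
  · exact le_rfl

theorem suma_kp {n : ℕ} (o : NOm) (s : St n) : toE (kpN o s) ≤ kp o.om s := by
  unfold kpN kp
  exact (suma_mul _ _).trans (mul_le_mul' (suma_pow _ _) le_rfl)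

theorem suma_LN {n : ℕ} (o : NOm) (a : Fin 3) (f : St n → ℕ) (s : St n) (x : ℝ≥0∞)
    (hx : toE (f (nx s a)) ≤ x) : toE (LN o a f s) ≤ wt o.om s a * x := by
  unfold LN
  exact (suma_mul _ _).trans (mul_le_mul' (suma_wt _ _ _) hx)

theorem suma_memo {n : ℕ} (f : St n → ℕ) : memo f = f := by
  funext s
  obtain ⟨a, r⟩ := s
  have h1 : (List.finRange (n + 1))[(r : ℕ)]? = some r := by
    rw [List.getElem?_eq_getElem (by simp; omega)]
    simp
  unfold memo look tab
  first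
    | (simp [List.getD_eq_getElem?_getD, h1]; done)
    | (simp [List.getD_eq_getElem?_getD, h1]; rfl)

/-- the letters up to a bijection -/
theorem suma_perm : ∀ p g : Fin 3, g ≠ p →
    ∃ π : Equiv.Perm (Fin 3), π p = 0 ∧ π (th p g) = 1 ∧ π g = 2 := by decide

/-- for the clauses with two letters -/
theorem suma_perm1 : ∀ p : Fin 3,
    ∃ π : Equiv.Perm (Fin 3), π p = 0 ∧ π (p + 1) = 1 ∧ π (p + 2) = 2 := by decide

/-- for the clause with one letter -/
theorem suma_perm2 : ∀ a c : Fin 3, c ≠ a →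
    ∃ π : Equiv.Perm (Fin 3), π a = 0 ∧ π c = 2 := by decide

def suma_ps {n : ℕ} (π : Equiv.Perm (Fin 3)) (s : St n) : St n := (π s.1, s.2)

theorem suma_nx {n : ℕ} (π : Equiv.Perm (Fin 3)) (s : St n) (a : Fin 3) :
    nx (suma_ps π s) (π a) = suma_ps π (nx s a) := by
  unfold nx suma_ps
  simp only [EmbeddingLike.apply_eq_iff_eq]
  split_ifs <;> rfl

theorem suma_wtNp {n : ℕ} (π : Equiv.Perm (Fin 3)) (o : NOm) (s : St n) (a : Fin 3) :
    wtN o (suma_ps π s) (π a) = wtN o s a := by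
  unfold wtN suma_ps
  simp only [EmbeddingLike.apply_eq_iff_eq]

theorem suma_wtp {n : ℕ} (π : Equiv.Perm (Fin 3)) (o : Om) (s : St n) (a : Fin 3) :
    wt o (suma_ps π s) (π a) = wt o s a := by
  unfold wt suma_ps
  simp only [EmbeddingLike.apply_eq_iff_eq]

theorem suma_kpNp {n : ℕ} (π : Equiv.Perm (Fin 3)) (o : NOm) (s : St n) :
    kpN o (suma_ps π s) = kpN o s := rfl

theorem suma_kpp {n : ℕ} (π : Equiv.Perm (Fin 3)) (o : Om) (s : St n) :
    kp o (suma_ps π s) = kp o s := rfl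

theorem suma_psip {n : ℕ} (π : Equiv.Perm (Fin 3)) (te tn : List ℕ) (o : NOm) (f : Fin 3)
    (s : St n) : psiN te tn o (π f) (suma_ps π s) = psiN te tn o f s := by
  unfold psiN suma_ps
  simp only [EmbeddingLike.apply_eq_iff_eq]

/-- the check as a statement -/
theorem suma_all (n z Y : ℕ) (te tn : List ℕ) (o o' : NOm) (h : chk n z Y te tn o o' = true) :
    (∀ k : ℕ, k ≤ n → ∀ s : St n, psiN te tn o 0 s = 0 ∨
      mulN (o'.rho.getD k 0) (psiN te tn o 0 s) + 1 ≤
        mulN z ((v3 z Y o (v5 z o (psiN (n := n) te tn o 2) Y) k).MP s +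
          (v3 z Y o (v5 z o (psiN (n := n) te tn o 2) Y) k).ZN s)) ∧
    (∀ s : St n, psiN te tn o 0 s = 0 ∨
      mulN o'.be (psiN te tn o 0 s) + 1 ≤ mulN z (star2 z o 1 2 (psiN te tn o 0) Y s)) ∧
    (∀ (s : St n) (t : Fin 3), psiN te tn o t s = 0 ∨
      mulN o'.ka (psiN te tn o t s) + 1 ≤ mulN z (star1 z o 2 (psiN te tn o 0) Y s)) := by
  unfold chk at h
  simp only [Bool.and_eq_true, List.all_eq_true, decide_eq_true_eq, suma_memo, List.mem_range,
    List.mem_finRange, true_implies] at h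
  obtain ⟨⟨h1, h2⟩, h3⟩ := h
  have hs : ∀ s : St n, s ∈ allSt n := by
    intro s
    unfold allSt
    rw [List.mem_flatMap]
    exact ⟨s.1, List.mem_finRange _, List.mem_map.mpr ⟨s.2, List.mem_finRange _, rfl⟩⟩
  exact ⟨fun k hk s => h1 k (by omega) s (hs s), fun s => h2 s (hs s), fun s t => h3 s (hs s) t⟩

end SHR
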