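import Pool.Agent.Helper35.SHR.Sheet2
import Pool.Agent.Helper16.SHR.SUMA

/-!
# SHR: row WTN
-/

set_option autoImplicit false

namespace SHR
open SHQ
open scoped ENNReal

theorem wtn_inj : ∀ p g : Fin 3, g ≠ p → ∀ a b : Fin 3, rl p g a = rl p g b ↔ a = b := by decide

theorem wtn_val : ∀ p g : Fin 3, g ≠ p →
    rl p g p = 0 ∧ rl p g (th p g) = 1 ∧ rl p g g = 2 := by decide

theorem st_WTN : ST_WTN := by
  refine ⟨fun a b => ⟨suma_mul a b, suma_mul1 a b, suma_add a b, fun h => suma_mono h⟩,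
    fun n f => suma_memo f, fun n p g hgp => ?_⟩
  obtain ⟨h1, h2, h3⟩ := wtn_val p g hgp
  have hi := wtn_inj p g hgp
  refine ⟨h1, h2, h3, ?_, ?_⟩
  · intro te tn o t s
    unfold psiN rs
    simp only [hi]
  · intro o s a
    refine ⟨?_, ?_, ?_⟩
    · unfold wtN wt rs
      simp only [hi]
      split_ifs
      · exact suma_one
      · rfl
      · rfl
    · unfold nx rs
      simp only [hi]
      split_ifs <;> rfl
    · exact suma_kp o s

end SHR
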