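import Pool.Agent.Helper35.SHR.Sheet2
import Pool.Agent.Helper16.SHR.WTN

/-!
# SHR: row SUM2
-/

set_option autoImplicit false

namespace SHR
open SHQ
open scoped ENNReal

theorem sum2_val : ∀ p : Fin 3, p + 2 ≠ p ∧ rl p (p + 2) p = 0 ∧ rl p (p + 2) (p + 1) = 1 ∧
    rl p (p + 2) (p + 2) = 2 := by decide

theorem st_SUM2 (h1 : ST_STARN) (h2 : ST_V3N) (h3 : ST_V3E) (h4 : ST_WTN) : ST_SUM2 := by
  intro n z Y te tn o o' hchk
  obtain ⟨c1, c2, c3⟩ := suma_all n z Y te tn o o' hchk
  obtain ⟨-, -, w⟩ := h4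
  refine ⟨?_, ?_, ?_⟩
  · intro k hk p g s hgp
    obtain ⟨r1, r2, r3, r4, -⟩ := w n p g hgp
    have hF : ∀ s : St n, toE (psiN te tn o 2 (rs p g s)) ≤
        (fun s => toE (psiN te tn o g s)) s := by
      intro s
      have := r4 te tn o g s
      rw [r3] at this
      rw [this]
    have hps : psiN te tn o 0 (rs p g s) = psiN te tn o p s := by
      have := r4 te tn o p s
      rwa [r1] at this
    obtain ⟨-, a2, a3⟩ := h2 n z o p g (psiN te tn o 2) _ hgp hF Y k s
    have key := suma_chk (c1 k hk (rs p g s))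
    rw [hps, suma_add] at key
    rw [← (h3 n (toE z) o.om p g _ hgp).2.2 k s]
    refine key.trans (mul_le_mul' le_rfl (add_le_add a3 a2))
  · intro p s
    obtain ⟨e0, e1, e2, e3⟩ := sum2_val p
    obtain ⟨-, -, -, r4, -⟩ := w n p (p + 2) e0
    have hF : ∀ s : St n, toE (psiN te tn o 0 (rs p (p + 2) s)) ≤
        (fun s => toE (psiN te tn o p s)) s := by
      intro s
      have := r4 te tn o p s
      rw [e1] at this
      rw [this]
    have hps : psiN te tn o 0 (rs p (p + 2) s) = psiN te tn o p s := by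
      have := r4 te tn o p s
      rwa [e1] at this
    have a1 := (h1 n z o p (p + 2) (psiN te tn o 0) _ e0 hF Y (p + 1) (p + 2) s).1
    rw [e2, e3] at a1
    have key := suma_chk (c2 (rs p (p + 2) s))
    rw [hps] at key
    refine (key.trans (mul_le_mul' le_rfl a1)).trans (le_of_eq ?_)
    unfold SB
    rw [← ENNReal.tsum_mul_left]
    refine tsum_congr fun y => ?_
    rw [pow_succ', mul_assoc]
  · intro t a c s hca
    obtain ⟨r1, -, r3, r4, -⟩ := w n a c hca
    have hF : ∀ s : St n, toE (psiN te tn o 0 (rs a c s)) ≤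
        (fun s => toE (psiN te tn o a s)) s := by
      intro s
      have := r4 te tn o a s
      rw [r1] at this
      rw [this]
    have a1 := (h1 n z o a c (psiN te tn o 0) _ hca hF Y c c s).2
    rw [r3] at a1
    have key := suma_chk (c3 (rs a c s) (rl a c t))
    rw [r4 te tn o t s] at key
    refine (key.trans (mul_le_mul' le_rfl a1)).trans (le_of_eq ?_)
    unfold SJ
    rw [← ENNReal.tsum_mul_left]
    refine tsum_congr fun y => ?_
    rw [pow_succ', mul_assoc]

end SHR
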